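import Pool.Agent.H89.TT.DiagT
import Pool.Agent.H47.TT.Field
import Pool.Agent.H95.TT.Hocolim

/-!
The object `B`: the homotopy colimit of a sequence of morphisms of `P` with nonzero composites
which are killed by an additive functor.
-/

open CategoryTheory CategoryTheory.Limits CategoryTheory.Pretriangulated MonoidalCategory

namespace Pool.Agent.H75.TT

open Fam Pool.Agent.H47.TT

namespace Emb

variable {P : Type} [Category.{0} P] [Preadditive P]

/-- Maps between one-object families. -/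
def oneMap {X Y : P} (f : X ⟶ Y) : one X ⟶ one Y where
  m _ _ := f
  fin _ := Set.toFinite _

/-- Objects of `P` as complexes in degree zero. -/
@[simps]
noncomputable def ofF (P : Type) [Category.{0} P] [Preadditive P] : P ⥤ DG P where
  obj X := ofObj X
  map {X Y} f :=
    { f := oneMap f
      hf := fun _ _ _ => (add_zero _).symm
      comm := by
        change (0 : one X ⟶ one X) ≫ oneMap f = oneMap f ≫ (0 : one Y ⟶ one Y)
        rw [zero_comp, comp_zero] }
  map_id X := by
    apply DG.hom_ext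
    refine Fam.hom_ext fun i j => ?_
    exact (id_m_self (one X) ()).symm
  map_comp {X Y Z} f g := by
    apply DG.hom_ext
    refine Fam.hom_ext fun i j => ?_
    refine Eq.trans ?_ (comp_m_one (F := one X) (G := one Y) (H := one Z) (oneMap f) (oneMap g)
      i j () (fun _ _ => rfl)).symm
    rfl

instance : (ofF P).Additive where
  map_add := by
    intro X Y f g
    apply DG.hom_ext
    rfl

/-- Objects of `P` as objects of `T P`. -/
noncomputable def emb (P : Type) [Category.{0} P] [Preadditive P] : P ⥤ T P := ofF P ⋙ T.Q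

lemma emb_obj (X : P) : (emb P).obj X = T.Q.obj (ofObj X) := rfl

instance : (emb P).Additive := inferInstanceAs (ofF P ⋙ T.Q).Additive

lemma emb_map_eq_zero {X Y : P} {f : X ⟶ Y} (h : (emb P).map f = 0) : f = 0 := by
  obtain ⟨k, hk, e⟩ := (T.Q_map_eq_zero_iff ((ofF P).map f)).1 h
  have hk0 : k = 0 := by
    refine Fam.hom_ext fun i j => ?_
    refine hk.m_eq_zero ?_
    change (0 : ℤ) ≠ 0 + -1
    norm_num
  rw [hk0, comp_zero, zero_comp, add_zero] at e
  exact congrArg (fun t : one X ⟶ one Y => t.m () ()) e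

instance : (emb P).Faithful where
  map_injective {X Y f g} h := by
    rw [← sub_eq_zero]
    apply emb_map_eq_zero
    rw [Functor.map_sub, h, sub_self]

instance : (emb P).Full where
  map_surjective {X Y} f := by
    obtain ⟨g, rfl⟩ := (T.Q (P := P)).map_surjective (X := ofObj X) (Y := ofObj Y) f
    refine ⟨g.f.m () (), ?_⟩
    refine congrArg (fun t : ofObj X ⟶ ofObj Y => (T.Q (P := P)).map t) ?_
    apply DG.hom_ext
    rfl

variable {P' : Type} [Category.{0} P'] [Preadditive P'] (Φ : P ⥤ P') [Φ.Additive]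

lemma mapT_emb_map_eq_zero {X Y : P} {f : X ⟶ Y} (h : Φ.map f = 0) :
    (T.mapT Φ).map ((emb P).map f) = 0 := by
  have h1 : (DG.mapF Φ).map ((ofF P).map f) = 0 := by
    apply DG.hom_ext
    refine Fam.hom_ext fun i j => ?_
    exact h
  have h2 : (T.mapT Φ).map ((emb P).map f) = T.Q.map ((DG.mapF Φ).map ((ofF P).map f)) := rfl
  rw [h2, h1]
  exact Functor.map_zero _ _ _

end Emb

open Emb Pool.Agent.H95.TT

section seq

/-- Functors commute with transition maps. -/
lemma map_ofSequence {C D : Type*} [Category* C] [Category* D] (F : C ⥤ D) {X : ℕ → C}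
    (φ : ∀ n, X n ⟶ X (n + 1)) (n m : ℕ) (h : n ≤ m) :
    F.map (Functor.OfSequence.map φ n m h) =
      Functor.OfSequence.map (X := fun n => F.obj (X n)) (fun n => F.map (φ n)) n m h := by
  induction m, h using Nat.le_induction with
  | base =>
    rw [Functor.OfSequence.map_id, Functor.OfSequence.map_id, F.map_id]
  | succ m hm ih =>
    rw [Functor.OfSequence.map_comp φ n m (m + 1) hm (Nat.le_succ m),
      Functor.OfSequence.map_comp (X := fun n => F.obj (X n)) (fun n => F.map (φ n)) n m (m + 1)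
        hm (Nat.le_succ m), F.map_comp, ih, Functor.OfSequence.map_le_succ,
      Functor.OfSequence.map_le_succ]

variable {P : Type} [Category.{0} P] [Preadditive P] {P' : Type} [Category.{0} P']
  [Preadditive P'] (Φ : P ⥤ P') [Φ.Additive] [HasCoproducts.{0} (T P)] [HasCoproducts.{0} (T P')]
  [PreservesColimitsOfShape (Discrete ℕ) (T.mapT Φ)]

/-- The homotopy colimit of a sequence of morphisms of `P` killed by `Φ`, with nonzero
composites. -/
theorem exists_objB {X : ℕ → P} (φ : ∀ n, X n ⟶ X (n + 1))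
    (hφ : ∀ n, Functor.OfSequence.map φ 0 n (Nat.zero_le n) ≠ 0) (h0 : ∀ n, Φ.map (φ n) = 0)
    (hc : IsCpt (T.Q.obj (ofObj (X 0)) : T P)) :
    ∃ B : T P, ¬ IsZero B ∧ IsZero ((T.mapT Φ).obj B) := by
  obtain ⟨B, i, hB⟩ := exists_isHocolim (fun n => (emb P).obj (X n)) (fun n => (emb P).map (φ n))
  refine ⟨B, fun hz => ?_, ?_⟩
  · have hc' : IsCpt ((emb P).obj (X 0)) := hc
    obtain ⟨m, hm, e⟩ := hB.exists_tr_eq_zero hc' (n := 0) (𝟙 _) (hz.eq_of_tgt _ _)
    rw [Category.id_comp] at e
    apply hφ m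
    apply emb_map_eq_zero
    rw [map_ofSequence]
    exact e
  · exact (hB.map (T.mapT Φ)).isZero fun n => mapT_emb_map_eq_zero Φ (h0 n)

end seq

section powers

variable {P : Type} [Category.{0} P] [MonoidalCategory P]

/-- Tensor powers. -/
def tpow (X : P) : ℕ → P
  | 0 => 𝟙_ P
  | n + 1 => tpow X n ⊗ X

/-- The maps `X^{⊗ n} ⟶ X^{⊗ (n + 1)}` given by a map `𝟙 ⟶ X`. -/
def tpowMap {X : P} (f : 𝟙_ P ⟶ X) (n : ℕ) : tpow X n ⟶ tpow X (n + 1) :=
  (ρ_ (tpow X n)).inv ≫ tpow X n ◁ f

/-- The transition maps satisfy any property stable under composition and tensor products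
satisfied by `f` and the structure maps. -/
lemma tpowMap_induction {X : P} (f : 𝟙_ P ⟶ X) (W : ∀ {Y Z : P}, (Y ⟶ Z) → Prop)
    (hid : ∀ Y : P, W (𝟙 Y)) (hcomp : ∀ {Y Z V : P} (g : Y ⟶ Z) (h : Z ⟶ V), W g → W h → W (g ≫ h))
    (hr : ∀ Y : P, W (ρ_ Y).inv) (hw : ∀ (Y : P) {Z V : P} (g : Z ⟶ V), W g → W (Y ◁ g))
    (hf : W f) (n m : ℕ) (h : n ≤ m) : W (Functor.OfSequence.map (tpowMap f) n m h) := by
  induction m, h using Nat.le_induction with
  | base =>
    rw [Functor.OfSequence.map_id]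
    exact hid _
  | succ m hm ih =>
    rw [Functor.OfSequence.map_comp (tpowMap f) n m (m + 1) hm (Nat.le_succ m),
      Functor.OfSequence.map_le_succ]
    exact hcomp _ _ ih (hcomp _ _ (hr _) (hw _ _ hf))

variable [Preadditive P] [MonoidalPreadditive P] {P' : Type} [Category.{0} P']
  [Preadditive P'] [MonoidalCategory P'] [MonoidalPreadditive P'] (Φ : P ⥤ P') [Φ.Additive]
  [Φ.Monoidal]

omit [Preadditive P] [MonoidalPreadditive P] [Φ.Additive] in
lemma map_tpowMap_eq_zero {X : P} {f : 𝟙_ P ⟶ X} (hf : Φ.map f = 0) (n : ℕ) :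
    Φ.map (tpowMap f n) = 0 := by
  have h : Φ.map (tpow X n ◁ f) = 0 := by
    rw [Functor.Monoidal.map_whiskerLeft, hf, MonoidalPreadditive.whiskerLeft_zero, zero_comp,
      comp_zero]
  have h' : Φ.map ((ρ_ (tpow X n)).inv ≫ tpow X n ◁ f) = 0 := by
    rw [Functor.map_comp, h, comp_zero]
  exact h'

/-- (R4) The object `B`. -/
theorem exists_objB_of_pow [HasCoproducts.{0} (T P)] [HasCoproducts.{0} (T P')]
    [PreservesColimitsOfShape (Discrete ℕ) (T.mapT Φ)] {X : P} (f : 𝟙_ P ⟶ X)
    (hf : Φ.map f = 0)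
    (hφ : ∀ n, Functor.OfSequence.map (tpowMap f) 0 n (Nat.zero_le n) ≠ 0)
    (hc : IsCpt (T.Q.obj (ofObj (𝟙_ P)) : T P)) :
    ∃ B : T P, ¬ IsZero B ∧ IsZero ((T.mapT Φ).obj B) :=
  exists_objB Φ (tpowMap f) hφ (map_tpowMap_eq_zero Φ hf) hc

end powers

end Pool.Agent.H75.TT
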