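import Pool.Agent.H85.TT.Diag
import Pool.Agent.H86.TT.MapTri

/-!
The homotopy category of `Diag S` is fully faithful over the product of the homotopy categories
of `S.Cat` and `C`; conservativity of the functors out of the pinched category.
-/

open CategoryTheory CategoryTheory.Limits MonoidalCategory

namespace Pool.Agent.H75.TT

variable {C : Type} [Category.{0} C] [Preadditive C] [MonoidalCategory C] [SymmetricCategory C]
  {S : TensorSub C}

namespace Fam

variable {F G : Fam (Diag S)}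

/-- A matrix over `Diag S` is a pair of matrices. -/
def pairF (f1 : (mapF (Diag.p1 S)).obj F ⟶ (mapF (Diag.p1 S)).obj G)
    (f2 : (mapF (Diag.p2 S)).obj F ⟶ (mapF (Diag.p2 S)).obj G) : F ⟶ G where
  m i j := ⟨(f1.m i j).f, (f1.m i j).mem, f2.m i j⟩
  fin i := ((f1.fin i).union (f2.fin i)).subset fun j hj => by
    by_contra hne
    have h1 : f1.m i j = 0 := by
      by_contra h
      exact hne (Or.inl h)
    have h2 : f2.m i j = 0 := by
      by_contra h
      exact hne (Or.inr h)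
    apply hj
    refine Diag.hom_ext ?_ h2
    exact congrArg (fun t : (Diag.p1 S).obj (F.X i) ⟶ (Diag.p1 S).obj (G.X j) => t.f) h1

lemma map_p1_pairF (f1 : (mapF (Diag.p1 S)).obj F ⟶ (mapF (Diag.p1 S)).obj G)
    (f2 : (mapF (Diag.p2 S)).obj F ⟶ (mapF (Diag.p2 S)).obj G) :
    (mapF (Diag.p1 S)).map (pairF f1 f2) = f1 := by
  ext i j
  rfl

lemma map_p2_pairF (f1 : (mapF (Diag.p1 S)).obj F ⟶ (mapF (Diag.p1 S)).obj G)
    (f2 : (mapF (Diag.p2 S)).obj F ⟶ (mapF (Diag.p2 S)).obj G) :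
    (mapF (Diag.p2 S)).map (pairF f1 f2) = f2 := by
  ext i j
  rfl

lemma hom_ext_pair {f g : F ⟶ G} (h1 : (mapF (Diag.p1 S)).map f = (mapF (Diag.p1 S)).map g)
    (h2 : (mapF (Diag.p2 S)).map f = (mapF (Diag.p2 S)).map g) : f = g := by
  refine Fam.hom_ext fun i j => ?_
  apply Diag.hom_ext_p
  · exact congrArg (fun t : (mapF (Diag.p1 S)).obj F ⟶ (mapF (Diag.p1 S)).obj G => t.m i j) h1
  · exact congrArg (fun t : (mapF (Diag.p2 S)).obj F ⟶ (mapF (Diag.p2 S)).obj G => t.m i j) h2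

lemma homog_pairF {a : F.ι → ℤ} {b : G.ι → ℤ} {n : ℤ}
    {f1 : (mapF (Diag.p1 S)).obj F ⟶ (mapF (Diag.p1 S)).obj G}
    {f2 : (mapF (Diag.p2 S)).obj F ⟶ (mapF (Diag.p2 S)).obj G}
    (h1 : Homog (F := (mapF (Diag.p1 S)).obj F) (G := (mapF (Diag.p1 S)).obj G) a b n f1)
    (h2 : Homog (F := (mapF (Diag.p2 S)).obj F) (G := (mapF (Diag.p2 S)).obj G) a b n f2) :
    Homog a b n (pairF f1 f2) := by
  intro i j hne
  by_cases h : f1.m i j = 0
  · by_cases h' : f2.m i j = 0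
    · exfalso
      apply hne
      refine Diag.hom_ext ?_ h'
      exact congrArg (fun t : (Diag.p1 S).obj (F.X i) ⟶ (Diag.p1 S).obj (G.X j) => t.f) h
    · exact h2 i j h'
  · exact h1 i j h

end Fam

open Fam

namespace DG

variable {A B : DG (Diag S)}

/-- A chain map over `Diag S` is a pair of chain maps. -/
def pairD (f1 : mapObj (Diag.p1 S) A ⟶ mapObj (Diag.p1 S) B)
    (f2 : mapObj (Diag.p2 S) A ⟶ mapObj (Diag.p2 S) B) : A ⟶ B where
  f := pairF f1.f f2.f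
  hf := homog_pairF f1.hf f2.hf
  comm := by
    apply hom_ext_pair
    · rw [CategoryTheory.Functor.map_comp, CategoryTheory.Functor.map_comp, map_p1_pairF]
      exact f1.comm
    · rw [CategoryTheory.Functor.map_comp, CategoryTheory.Functor.map_comp, map_p2_pairF]
      exact f2.comm

lemma map_p1_pairD (f1 : mapObj (Diag.p1 S) A ⟶ mapObj (Diag.p1 S) B)
    (f2 : mapObj (Diag.p2 S) A ⟶ mapObj (Diag.p2 S) B) :
    (mapF (Diag.p1 S)).map (pairD f1 f2) = f1 := by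
  apply DG.hom_ext
  exact map_p1_pairF f1.f f2.f

lemma map_p2_pairD (f1 : mapObj (Diag.p1 S) A ⟶ mapObj (Diag.p1 S) B)
    (f2 : mapObj (Diag.p2 S) A ⟶ mapObj (Diag.p2 S) B) :
    (mapF (Diag.p2 S)).map (pairD f1 f2) = f2 := by
  apply DG.hom_ext
  exact map_p2_pairF f1.f f2.f

end DG

namespace T

/-- (R1) Fullness of `T (Diag S)` over the product of `T S.Cat` and `T C`. -/
theorem diag_full (A B : T (Diag S)) (f1 : (mapT (Diag.p1 S)).obj A ⟶ (mapT (Diag.p1 S)).obj B)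
    (f2 : (mapT (Diag.p2 S)).obj A ⟶ (mapT (Diag.p2 S)).obj B) :
    ∃ f : A ⟶ B, (mapT (Diag.p1 S)).map f = f1 ∧ (mapT (Diag.p2 S)).map f = f2 := by
  obtain ⟨A⟩ := A
  obtain ⟨B⟩ := B
  obtain ⟨g1, rfl⟩ := (Q (P := S.Cat)).map_surjective
    (X := DG.mapObj (Diag.p1 S) A) (Y := DG.mapObj (Diag.p1 S) B) f1
  obtain ⟨g2, rfl⟩ := (Q (P := C)).map_surjective
    (X := DG.mapObj (Diag.p2 S) A) (Y := DG.mapObj (Diag.p2 S) B) f2
  refine ⟨Q.map (DG.pairD g1 g2), ?_, ?_⟩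
  · exact congrArg (fun t => (Q (P := S.Cat)).map t) (DG.map_p1_pairD g1 g2)
  · exact congrArg (fun t => (Q (P := C)).map t) (DG.map_p2_pairD g1 g2)

/-- (R2) Faithfulness of `T (Diag S)` over the product of `T S.Cat` and `T C`. -/
theorem diag_faithful (A B : T (Diag S)) (f : A ⟶ B) (h1 : (mapT (Diag.p1 S)).map f = 0)
    (h2 : (mapT (Diag.p2 S)).map f = 0) : f = 0 := by
  obtain ⟨A⟩ := A
  obtain ⟨B⟩ := B
  obtain ⟨g, rfl⟩ := (Q (P := Diag S)).map_surjective (X := A) (Y := B) f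
  obtain ⟨k1, hk1, e1⟩ := (Q_map_eq_zero_iff ((DG.mapF (Diag.p1 S)).map g)).1 h1
  obtain ⟨k2, hk2, e2⟩ := (Q_map_eq_zero_iff ((DG.mapF (Diag.p2 S)).map g)).1 h2
  refine (Q_map_eq_zero_iff g).2 ⟨pairF k1 k2, homog_pairF hk1 hk2, ?_⟩
  apply hom_ext_pair
  · rw [CategoryTheory.Functor.map_add, CategoryTheory.Functor.map_comp,
      CategoryTheory.Functor.map_comp, map_p1_pairF]
    exact e1
  · rw [CategoryTheory.Functor.map_add, CategoryTheory.Functor.map_comp,
      CategoryTheory.Functor.map_comp, map_p2_pairF]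
    exact e2

section pinch

variable [MonoidalPreadditive C] (Pk : Pinch C)

/-- (R3) First part. -/
theorem isZero_P0_of_PD (M : T Pk.PP.Cat) (h : IsZero ((mapT Pk.PD).obj M)) :
    IsZero ((mapT Pk.P0).obj M) :=
  (mapT (Diag.p1 Pk.C0)).map_isZero h

/-- (R3) Second part. -/
theorem isZero_P2_of_PD (M : T Pk.PP.Cat) (h : IsZero ((mapT Pk.PD).obj M)) :
    IsZero ((mapT Pk.P2).obj M) :=
  (mapT (Diag.p2 Pk.C0)).map_isZero h

end pinch

end T

end Pool.Agent.H75.TT
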