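import Pool.Agent.H89.TT.ObjB
import Pool.Agent.H55.TT.Perf

/-!
The object `B` for the concrete pinched category.
-/

open CategoryTheory CategoryTheory.Limits CategoryTheory.Pretriangulated MonoidalCategory

namespace Pool.Agent.H89.TT

open Pool.Agent.H75.TT Pool.Agent.H47.TT Pool.Agent.H55.TT

/-- The unit, the generator of weight one and the morphism `f` in the pinched category. -/
noncomputable def fP : 𝟙_ (pinch.PP.Cat) ⟶ (⟨Obj.gen 1⟩ : pinch.PP.Cat) :=
  ⟨fH, Pinch.mem_PP_of_w one_pos fH_w⟩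

lemma P0_fP : pinch.P0.map fP = 0 := by
  apply TensorSub.hom_ext
  change pinch.w 0 fH = 0
  rw [← fH_w, pinch.w_w, if_neg (by norm_num)]

/-- The iterated tensor powers of `f` are nonzero. -/
lemma tpow_fP_ne_zero (n : ℕ) :
    Functor.OfSequence.map (tpowMap fP) 0 n (Nat.zero_le n) ≠ 0 := by
  have h : Pos (Functor.OfSequence.map (tpowMap fP) 0 n (Nat.zero_le n)).f :=
    tpowMap_induction fP (fun {Y Z : pinch.PP.Cat} (g : Y ⟶ Z) => Pos g.f)
      (fun Y => Pos.id Y.of) (fun g h hg hh => hg.comp hh) (fun Y => Pos.right_inv Y.of)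
      (fun Y _ _ g hg => Pos.whiskerLeft Y.of hg) fH_pos 0 n (Nat.zero_le n)
  intro h0
  apply h.ne_zero
  rw [h0]
  rfl

/-- The object `B` over the concrete pinched category. -/
theorem exists_objB_pinch [HasCoproducts.{0} (T pinch.PP.Cat)]
    [HasCoproducts.{0} (T pinch.C0.Cat)] [PreservesColimitsOfShape (Discrete ℕ) (T.mapT pinch.P0)]
    (hc : IsCpt (T.Q.obj (ofObj (𝟙_ pinch.PP.Cat)) : T pinch.PP.Cat)) :
    ∃ B : T pinch.PP.Cat, ¬ IsZero B ∧ IsZero ((T.mapT pinch.P0).obj B) :=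
  exists_objB_of_pow pinch.P0 fP P0_fP tpow_fP_ne_zero hc

end Pool.Agent.H89.TT
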